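import Pool.Agent.Lib.MP_1c8e06_ag.AU.SI
import Pool.Agent.Lib.MP_1c8e06_ag.AK.G7

set_option autoImplicit false

open Polynomial
open scoped Classical

namespace Pool.Agent.MP_1c8e06_ag.AU

open Pool.Agent.MP_1c8e06_ag.AJ

noncomputable section

/-!
# The reduction theorem and Theorem AU
-/

/-- `A = T ⟨y⟩` is almost simple with socle `T` of order divisible by `p`, `y` has order `p` and
lies in exactly one maximal subgroup of `A`. -/
def Bad (p : ℕ) (A : Type) [Group A] : Prop :=
  ∃ (T : Subgroup A) (y : A), T.Normal ∧ IsSimpleGroup T ∧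
    Subgroup.centralizer (T : Set A) = ⊥ ∧ p ∣ Nat.card T ∧ orderOf y = p ∧
    T ⊔ Subgroup.zpowers y = ⊤ ∧ ∃! M : Subgroup A, IsCoatom M ∧ y ∈ M

/-- The largest normal subgroup of order prime to `p`. -/
theorem exists_R (p : ℕ) [hp : Fact p.Prime] (G : Type) [Group G] [Finite G] :
    ∃ R : Subgroup G, R.Normal ∧ ¬ p ∣ Nat.card R ∧
      ∀ N : Subgroup G, N.Normal → ¬ p ∣ Nat.card N → N ≤ R := by
  have hfin : {N : Subgroup G | N.Normal ∧ ¬ p ∣ Nat.card N}.Finite := Set.toFinite _
  have hne : {N : Subgroup G | N.Normal ∧ ¬ p ∣ Nat.card N}.Nonempty := by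
    refine ⟨⊥, Subgroup.normal_bot, ?_⟩
    rw [Subgroup.card_bot]
    intro h
    exact hp.out.one_lt.ne' (Nat.dvd_one.1 h)
  obtain ⟨R, hR, hRm⟩ := Set.exists_max_image _ (fun N : Subgroup G => Nat.card N) hfin hne
  refine ⟨R, hR.1, hR.2, fun N hN hNp => ?_⟩
  have := hR.1
  have h1 : Nat.card (N ⊔ R : Subgroup G) = R.relIndex N * Nat.card R := by
    rw [← Subgroup.relIndex_sup_right, mul_comm, ← Subgroup.relIndex_bot_left,
      ← Subgroup.relIndex_bot_left, Subgroup.relIndex_mul_relIndex _ _ _ bot_le le_sup_right]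
  have h2 : ¬ p ∣ Nat.card (N ⊔ R : Subgroup G) := by
    rw [h1]
    intro h
    rcases (Nat.Prime.dvd_mul hp.out).1 h with h | h
    · exact hNp (h.trans (Subgroup.relIndex_dvd_card R N))
    · exact hR.2 h
  have h3 := hRm (N ⊔ R) ⟨inferInstance, h2⟩
  have h4 : R = N ⊔ R := by
    apply Subgroup.eq_of_le_of_card_ge le_sup_right h3
  rw [h4]
  exact le_sup_left

theorem psolvable_of_sup {p : ℕ} [hp : Fact p.Prime] {G : Type} [Group G] [Finite G]
    (R : Subgroup G) (hRn : R.Normal) (hR : ¬ p ∣ Nat.card R) (x : G) (hx : orderOf x = p)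
    (h : R ⊔ Subgroup.zpowers x = ⊤) : AK.PSolvable p G := by
  refine ⟨2, fun i => if i = 0 then ⊥ else if i = 1 then R else ⊤, ?_, ?_, ?_, ?_, ?_⟩
  · simp
  · simp
  · intro i
    by_cases h0 : i = 0
    · simp only [h0, if_true]
      exact Subgroup.normal_bot
    · by_cases h1 : i = 1
      · simp only [h1, if_true, one_ne_zero, if_false]
        exact hRn
      · simp only [h0, h1, if_false]
        exact Subgroup.normal_top
  · intro i
    by_cases h0 : i = 0
    · simp only [h0, if_true]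
      exact bot_le
    · have h1 : i + 1 ≠ 0 := by omega
      have h2 : i + 1 ≠ 1 := by omega
      simp only [h1, h2, if_false]
      exact le_top
  · intro i hi
    have hi' : i = 0 ∨ i = 1 := by omega
    rcases hi' with rfl | rfl
    · right
      simp only [zero_add, if_true, one_ne_zero, if_false]
      rw [Subgroup.relIndex_bot_left]
      exact hR
    · left
      have h2 : (1 : ℕ) + 1 ≠ 0 := by omega
      have h3 : (1 : ℕ) + 1 ≠ 1 := by omega
      simp only [h2, h3, if_true, one_ne_zero, if_false]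
      have h4 : R.relIndex (R ⊔ Subgroup.zpowers x) = R.relIndex (Subgroup.zpowers x) :=
        Subgroup.relIndex_sup_left (Subgroup.zpowers x) R
      rw [h] at h4
      have h5 : R.relIndex (Subgroup.zpowers x) ∣ p := by
        have h6 := Subgroup.relIndex_dvd_card R (Subgroup.zpowers x)
        rwa [Nat.card_zpowers, hx] at h6
      rw [h4]
      rcases (Nat.dvd_prime hp.out).1 h5 with h6 | h6
      · exact ⟨0, by rw [h6, pow_zero]⟩
      · exact ⟨1, by rw [h6, pow_one]⟩

/-- The reduction theorem: it suffices to treat the minimal situations. -/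
theorem base_red {p : ℕ} [hp : Fact p.Prime] {k : Type} [Field k] [IsAlgClosed k] [CharP k p]
    (hL : AK.BaseL p k) (CC : Cls)
    (hbad : ∀ (P G : Type) [Group P] [Fintype P] [Group G] [Fintype G] (i : P →* G) (u₀ : P)
      (M R : Subgroup G) [hRn : R.Normal], CC.mem G → Ind p k CC (Nat.card G) →
      Nat.card P = p → orderOf u₀ = p → (∀ u : P, ∃ n : ℕ, u = u₀ ^ n) →
      Function.Injective i → UMax p (i u₀) M → ¬ p ∣ Nat.card R →
      (∀ N : Subgroup G, N.Normal → ¬ p ∣ Nat.card N → N ≤ R) →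
      (∀ K : Subgroup G, IsCoatom K → R ≤ K) → Bad p (G ⧸ R) → RE p k i ⊤) : Base p k CC := by
  suffices h : ∀ n : ℕ, Base p k (AK.Cls.lt CC n) by
    intro P G _ _ _ _ i hG hcard hi hgen
    exact h (Nat.card G + 1) P G i ⟨hG, inferInstance, Nat.lt_succ_self _⟩ hcard hi hgen
  intro n
  induction n with
  | zero =>
    intro P G _ _ _ _ i hG
    exact absurd hG.2.2 (Nat.not_lt_zero _)
  | succ n ih =>
    intro P G _ _ _ _ i hG hcard hi hgen
    have hlt : Nat.card G < n + 1 := hG.2.2
    have hind : Ind p k CC (Nat.card G) := by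
      intro P' G' _ _ _ _ i' hG' hlt' hP' hi' hgen'
      exact main_RE (AK.Cls.lt CC n) ih i' ⟨hG', inferInstance, by omega⟩ hP' hi' hgen'
    have hP : IsPGroup p P := IsPGroup.of_card (n := 1) (by rw [hcard, pow_one])
    obtain ⟨u₀, hu⟩ := exists_prime_orderOf_dvd_card' (G := P) p (by rw [hcard])
    have hu1 : u₀ ≠ 1 := by
      intro h
      rw [h, orderOf_one] at hu
      exact hp.out.one_lt.ne hu
    have hgen₀ : ∀ u : P, ∃ n : ℕ, u = u₀ ^ n := by
      intro u
      obtain ⟨m, hm⟩ := mem_powers_of_prime_card (p := p) hcard hu1 (g' := u)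
      exact ⟨m, hm.symm⟩
    by_cases hOp : ∀ N : Subgroup G, N.Normal → IsPGroup p N → N = ⊥
    · obtain ⟨H₀, h0, hmax⟩ := AM.exists_max (k := k) i hi hcard
      by_cases hne : H₀ = ⊤
      · rw [hne] at h0
        exact h0
      · obtain ⟨M, E, -, -⟩ := min_umax CC u₀ hu hgen₀ i hG.1 hind hP hi hgen H₀ h0 hmax hne hOp
        obtain ⟨R, hRn, hR, hRmax⟩ := exists_R p G
        by_cases hRx : R ⊔ Subgroup.zpowers (i u₀) = ⊤
        · exact AK.base_PS hL P G i (psolvable_of_sup R hRn hR (i u₀) E.ord hRx) hcard hi hgen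
        · obtain ⟨E', hOp'⟩ := E.uq.quot R hR hRmax hRx
          obtain ⟨T, hTn, hTs, hTx, hpT, hTc⟩ := E'.simple hOp'
          exact hbad P G i u₀ M R hG.1 hind hcard hu hgen₀ hi E hR hRmax
            (E.uq.le_coatom R hRn hR hRx)
            ⟨T, _, hTn, hTs, hTc, hpT, E'.ord, hTx, _, ⟨E'.coat, E'.mem⟩,
              fun K hK => E'.uniq K hK.1 hK.2⟩
    · push Not at hOp
      obtain ⟨N, hNn, hNp, hNne⟩ := hOp
      exact case_two CC i hG.1 hind hP hi hgen N hNn hNp hNne

/-- The class of groups without a bad section. -/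
def NB (p : ℕ) : Cls where
  mem G _ := ∀ (L : Subgroup G) (A : Type) [Group A] (f : L →* A), Function.Surjective f →
    ¬ Bad p A
  sub G _ _ H h L A _ f hf := by
    have e : L ≃* L.map H.subtype := L.equivMapOfInjective H.subtype H.subtype_injective
    exact h (L.map H.subtype) A (f.comp e.symm.toMonoidHom) (hf.comp e.symm.surjective)
  quot G _ _ N _ h L A _ f hf := by
    refine h (L.comap (QuotientGroup.mk' N)) A
      (f.comp ((QuotientGroup.mk' N).subgroupComap L)) (hf.comp ?_)
    rintro ⟨y, hy⟩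
    obtain ⟨g, rfl⟩ := QuotientGroup.mk'_surjective N y
    exact ⟨⟨g, hy⟩, rfl⟩

theorem base_NB {p : ℕ} [hp : Fact p.Prime] {k : Type} [Field k] [IsAlgClosed k] [CharP k p]
    (hL : AK.BaseL p k) : Base p k (NB p) := by
  apply base_red hL (NB p)
  intro P G _ _ _ _ i u₀ M R hRn hG _ _ _ _ _ _ _ _ _ hB
  exfalso
  exact hG ⊤ (G ⧸ R) ((QuotientGroup.mk' R).comp (⊤ : Subgroup G).subtype)
    ((QuotientGroup.mk'_surjective R).comp (fun g => ⟨⟨g, Subgroup.mem_top g⟩, rfl⟩)) hB

/-- Theorem AU. -/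
theorem main_au_of {p : ℕ} [hp : Fact p.Prime] (k : Type) [Field k] [IsAlgClosed k] [CharP k p]
    (hL : AK.BaseL p k) {G : Type} [Group G] [Finite G]
    (hG : ∀ (L : Subgroup G) (A : Type) [Group A] (f : L →* A), Function.Surjective f → ¬ Bad p A)
    (P : Subgroup G) (hP : IsPGroup p P) (hgen : Subgroup.normalClosure (P : Set G) = ⊤) :
    AI.Realised k G P :=
  main_class k (NB p) (base_NB hL) hG P hP hgen

end

end Pool.Agent.MP_1c8e06_ag.AU
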