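import Pool.Agent.Lib.MP_1c8e06_ag.AU.ST

set_option autoImplicit false

namespace Pool.Agent.MP_1c8e06_ag.AU

open Pool.Agent.MP_1c8e06_ag.AJ

/-!
# The reduced group is almost simple: `G = T ⟨x⟩`, `T` simple
-/

theorem normal_of_cj {G : Type} [Group G] {T : Subgroup G} (h : ∀ g : G, BT.cj g T = T) :
    T.Normal := by
  refine ⟨fun y hy g => ?_⟩
  have h2 : g * y * g⁻¹ ∈ BT.cj g T := BT.conj_mem_cj.2 hy
  rwa [h g] at h2

theorem cj_of_normal {G : Type} [Group G] {T : Subgroup G} (h : T.Normal) (g : G) :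
    BT.cj g T = T := by
  ext y
  rw [BT.mem_cj]
  constructor
  · intro hy
    have h2 := h.conj_mem _ hy g
    have h3 : g * (g⁻¹ * y * g) * g⁻¹ = y := by group
    rwa [h3] at h2
  · intro hy
    have h2 := h.conj_mem _ hy g⁻¹
    rwa [inv_inv] at h2

namespace UQ

variable {p : ℕ} [hp : Fact p.Prime] {G : Type} [Group G] [Finite G] {x : G} {M : Subgroup G}

/-- (A): `N ⟨x⟩ = G` for every nontrivial normal subgroup `N`. -/
theorem sup_eq (E : UQ p x M) (hOp' : ∀ N : Subgroup G, N.Normal → ¬ p ∣ Nat.card N → N = ⊥)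
    (N : Subgroup G) (hN : N.Normal) (hNb : N ≠ ⊥) : N ⊔ Subgroup.zpowers x = ⊤ := by
  by_contra hne
  have hNM : N ≤ M := le_sup_left.trans (E.le _ hne (Subgroup.mem_sup_right (Subgroup.mem_zpowers x)))
  obtain ⟨T, hTN, hTp, hTx, hTF, hT5⟩ := exists_sylow (p := p) N (Subgroup.zpowers x) hN E.pgroup
  have hTb : T ≠ ⊥ := by
    rintro rfl
    apply hNb
    apply hOp' N hN
    intro hd
    obtain ⟨z, hz⟩ := exists_prime_orderOf_dvd_card' (G := N) p hd
    have h4 := hT5 (fun g => BT.cj_bot g) z z.2 ⟨1, by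
      have h5 : z ^ p = 1 := by
        rw [← hz]
        exact pow_orderOf_eq_one z
      rw [pow_one]
      exact congrArg Subtype.val h5⟩
    rw [Subgroup.mem_bot] at h4
    have h5 : z = 1 := Subtype.ext h4
    rw [h5, orderOf_one] at hz
    exact hp.out.one_lt.ne hz
  have hY : BT.S3_nz T ≤ M := by
    apply E.le
    · intro htop
      apply hTb
      apply E.hOp T _ hTp
      apply normal_of_cj
      intro g
      apply BT.S3_mem_nz.1
      rw [htop]
      exact Subgroup.mem_top g
    · exact BT.S3_mem_nz.2 (hTx x (Subgroup.mem_zpowers x))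
  apply E.coat.1
  rw [eq_top_iff]
  intro g _
  obtain ⟨n, hn, hng⟩ := hTF g
  have h2 : g = n⁻¹ * (n * g) := by group
  rw [h2]
  exact M.mul_mem (M.inv_mem (hNM hn)) (hY (BT.S3_mem_nz.2 hng))

/-- A nontrivial normal subgroup is not abelian. -/
theorem nonab (E : UQ p x M) (hOp' : ∀ N : Subgroup G, N.Normal → ¬ p ∣ Nat.card N → N = ⊥)
    (N : Subgroup G) (hN : N.Normal) (hNb : N ≠ ⊥) : ¬ ∀ a ∈ N, ∀ b ∈ N, a * b = b * a := by
  intro hab
  obtain ⟨T, -, hTN, hTp, hTi⟩ := exists_sylow_in (p := p) ⊥ N bot_le (IsPGroup.of_bot)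
  have hTn : T.Normal := by
    apply normal_of_cj
    intro g
    have h1 : BT.cj g T ≤ N := by
      rw [← cj_of_normal hN g]
      exact BT.cj_mono hTN
    have h2 : IsPGroup p (BT.cj g T) := by
      obtain ⟨m, hm⟩ := IsPGroup.iff_card.1 hTp
      exact IsPGroup.of_card (n := m) (by rw [BT.card_cj, hm])
    obtain ⟨n, hn, hnT⟩ := conj_into (p := p) N T (BT.cj g T) hTN hTp hTi h1 h2
    apply BT.cj_eq_of_le
    intro y hy
    apply hnT
    rw [BT.mem_cj, mul_assoc, hab y (h1 hy) n hn, ← mul_assoc, inv_mul_cancel, one_mul]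
    exact hy
  have hTb := E.hOp T hTn hTp
  apply hNb
  apply hOp' N hN
  intro hd
  apply hTi
  rw [hTb, Subgroup.relIndex_bot_left]
  exact hd

/-- An element whose conjugates by powers of `x` commute lies in `M`. -/
theorem mem_of_comm (E : UQ p x M)
    (hOp' : ∀ N : Subgroup G, N.Normal → ¬ p ∣ Nat.card N → N = ⊥)
    (N : Subgroup G) (hN : N.Normal) (hNb : N ≠ ⊥) (hxN : x ∉ N) (t : G) (ht : t ∈ N)
    (hc : ∀ i j : ℕ, (x ^ i * t * (x ^ i)⁻¹) * (x ^ j * t * (x ^ j)⁻¹) =
      (x ^ j * t * (x ^ j)⁻¹) * (x ^ i * t * (x ^ i)⁻¹)) : t ∈ M := by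
  set A : Subgroup G := Subgroup.closure {y | ∃ i : ℕ, y = x ^ i * t * (x ^ i)⁻¹} with hA
  have hAN : A ≤ N := by
    rw [hA, Subgroup.closure_le]
    rintro y ⟨i, rfl⟩
    exact hN.conj_mem t ht _
  have hAc : ∀ a ∈ A, ∀ b ∈ A, a * b = b * a := by
    have h1 : ∀ b ∈ A, ∀ a ∈ A, a * b = b * a := by
      intro b hb a ha
      induction ha using Subgroup.closure_induction with
      | mem a ha =>
        obtain ⟨i, rfl⟩ := ha
        induction hb using Subgroup.closure_induction with
        | mem b hb =>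
          obtain ⟨j, rfl⟩ := hb
          exact hc i j
        | one => rw [mul_one, one_mul]
        | mul b c _ _ hb hc' =>
          exact (Commute.mul_right (show Commute _ b from hb) (show Commute _ c from hc')).eq
        | inv b _ hb =>
          exact (Commute.inv_right (show Commute _ b from hb)).eq
      | one => rw [mul_one, one_mul]
      | mul a c _ _ ha hc' =>
        exact (Commute.mul_left (show Commute a _ from ha) (show Commute c _ from hc')).eq
      | inv a _ ha =>
        exact (Commute.inv_left (show Commute a _ from ha)).eq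
    exact fun a ha b hb => h1 b hb a ha
  have hAx : BT.cj x A = A := by
    apply BT.cj_eq_of_le
    rw [hA, BT.cj_closure, Subgroup.closure_le]
    rintro _ ⟨y, ⟨i, rfl⟩, rfl⟩
    refine Subgroup.subset_closure ⟨i + 1, ?_⟩
    rw [pow_succ']
    group
  have hAxi : ∀ z ∈ Subgroup.zpowers x, BT.cj z A = A := by
    intro z hz
    have h1 : Subgroup.zpowers x ≤ BT.S3_nz A := by
      rw [Subgroup.zpowers_le]
      exact BT.S3_mem_nz.2 hAx
    exact BT.S3_mem_nz.1 (h1 hz)
  have htA : t ∈ A := by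
    refine Subgroup.subset_closure ⟨0, ?_⟩
    rw [pow_zero, one_mul, inv_one, mul_one]
  have hne : A ⊔ Subgroup.zpowers x ≠ ⊤ := by
    intro htop
    have hNx : ∀ z ∈ Subgroup.zpowers x, z ∈ N → z = 1 := by
      intro z hz hzN
      by_contra hz1
      apply hxN
      have h1 : Subgroup.zpowers z = Subgroup.zpowers x := by
        apply Subgroup.eq_of_le_of_card_ge
        · rw [Subgroup.zpowers_le]
          exact hz
        · rw [Nat.card_zpowers, Nat.card_zpowers, E.ord]
          have h2 : orderOf z ∣ p := by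
            have h3 := Subgroup.orderOf_dvd_natCard _ hz
            rwa [Nat.card_zpowers, E.ord] at h3
          rcases (Nat.dvd_prime hp.out).1 h2 with h3 | h3
          · exact absurd (orderOf_eq_one_iff.1 h3) hz1
          · exact h3.ge
      have h2 : x ∈ Subgroup.zpowers z := by
        rw [h1]
        exact Subgroup.mem_zpowers x
      have h3 : Subgroup.zpowers z ≤ N := by
        rw [Subgroup.zpowers_le]
        exact hzN
      exact h3 h2
    have hdec : ∀ g : G, ∃ a ∈ A, ∃ z ∈ Subgroup.zpowers x, g = a * z := by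
      intro g
      have hg : g ∈ A ⊔ Subgroup.zpowers x := by
        rw [htop]
        exact Subgroup.mem_top g
      have h1 : A ⊔ Subgroup.zpowers x ≤
          { carrier := {g | ∃ a ∈ A, ∃ z ∈ Subgroup.zpowers x, g = a * z}
            mul_mem' := by
              rintro _ _ ⟨a, ha, z, hz, rfl⟩ ⟨b, hb, w, hw, rfl⟩
              refine ⟨a * (z * b * z⁻¹), A.mul_mem ha ?_, z * w,
                Subgroup.mul_mem _ hz hw, by group⟩
              rw [← hAxi z hz]
              exact BT.conj_mem_cj.2 hb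
            one_mem' := ⟨1, A.one_mem, 1, Subgroup.one_mem _, by group⟩
            inv_mem' := by
              rintro _ ⟨a, ha, z, hz, rfl⟩
              refine ⟨z⁻¹ * a⁻¹ * z⁻¹⁻¹, ?_, z⁻¹, Subgroup.inv_mem _ hz, by group⟩
              rw [← hAxi z⁻¹ (Subgroup.inv_mem _ hz)]
              exact BT.conj_mem_cj.2 (A.inv_mem ha) } := by
        refine sup_le ?_ ?_
        · intro a ha
          exact ⟨a, ha, 1, Subgroup.one_mem _, by group⟩
        · intro z hz
          exact ⟨1, A.one_mem, z, hz, by group⟩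
      exact h1 hg
    have hNA : N ≤ A := by
      intro g hg
      obtain ⟨a, ha, z, hz, rfl⟩ := hdec g
      have h1 : z ∈ N := by
        have h2 := N.mul_mem (N.inv_mem (hAN ha)) hg
        rwa [← mul_assoc, inv_mul_cancel, one_mul] at h2
      rw [hNx z hz h1, mul_one]
      exact ha
    exact E.nonab hOp' N hN hNb (fun a ha b hb => hAc a (hNA ha) b (hNA hb))
  exact (le_sup_left.trans (E.le _ hne (Subgroup.mem_sup_right (Subgroup.mem_zpowers x)))) htA

/-- `G = T ⟨x⟩` with a simple normal subgroup `T`, and the centraliser of `T` is trivial. -/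
theorem simple (E : UQ p x M)
    (hOp' : ∀ N : Subgroup G, N.Normal → ¬ p ∣ Nat.card N → N = ⊥) :
    ∃ T : Subgroup G, T.Normal ∧ IsSimpleGroup T ∧ T ⊔ Subgroup.zpowers x = ⊤ ∧
      p ∣ Nat.card T ∧ Subgroup.centralizer (T : Set G) = ⊥ := by
  have hGt : (⊤ : Subgroup G) ≠ ⊥ := by
    intro h
    apply E.x_ne
    have h1 : x ∈ (⊤ : Subgroup G) := Subgroup.mem_top x
    rwa [h, Subgroup.mem_bot] at h1
  -- a minimal normal subgroup
  obtain ⟨N, ⟨hNn, hNb⟩, hNmin⟩ := (wellFounded_lt (α := Subgroup G)).has_min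
    {N : Subgroup G | N.Normal ∧ N ≠ ⊥} ⟨⊤, inferInstance, hGt⟩
  have hNx := E.sup_eq hOp' N hNn hNb
  -- a minimal subgroup normalised by `N`
  obtain ⟨T, ⟨hTN, hTc, hTb⟩, hTmin⟩ := (wellFounded_lt (α := Subgroup G)).has_min
    {T : Subgroup G | T ≤ N ∧ (∀ n ∈ N, BT.cj n T = T) ∧ T ≠ ⊥}
    ⟨N, le_rfl, fun n hn => BT.cj_eq_self hn, hNb⟩
  have hTx : BT.cj x T = T := by
    by_contra hne
    have hxN : x ∉ N := fun h => hne (hTc x h)
    have hpow : ∀ i : ℕ, BT.cj (x ^ i) T = T → p ∣ i := by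
      intro i hi
      by_contra hpi
      apply hne
      have h1 : Nat.Coprime i (orderOf x) := by
        rw [E.ord]
        exact ((Nat.Prime.coprime_iff_not_dvd hp.out).2 hpi).symm
      obtain ⟨m, hm⟩ := exists_pow_eq_self_of_coprime h1
      have h2 : ∀ m : ℕ, (x ^ i) ^ m ∈ BT.S3_nz T := by
        intro m
        exact (BT.S3_nz T).pow_mem (BT.S3_mem_nz.2 hi) m
      have h3 := h2 m
      rw [hm] at h3
      exact BT.S3_mem_nz.1 h3
    have hcomm : ∀ i : ℕ, ∀ t ∈ T, t * (x ^ i * t * (x ^ i)⁻¹) = (x ^ i * t * (x ^ i)⁻¹) * t := by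
      intro i t ht
      by_cases hi : BT.cj (x ^ i) T = T
      · have h1 : x ^ i = 1 := by
          obtain ⟨m, hm⟩ := hpow i hi
          rw [hm, pow_mul]
          have h2 : x ^ p = 1 := by
            rw [← E.ord]
            exact pow_orderOf_eq_one x
          rw [h2, one_pow]
        rw [h1, one_mul, inv_one, mul_one]
      · have h1 : T ⊓ BT.cj (x ^ i) T = ⊥ := by
          by_contra h2
          have h3 : ∀ n ∈ N, BT.cj n (BT.cj (x ^ i) T) = BT.cj (x ^ i) T := by
            intro n hn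
            have h4 : n * x ^ i = x ^ i * ((x ^ i)⁻¹ * n * x ^ i) := by group
            have h5 : (x ^ i)⁻¹ * n * x ^ i ∈ N := by
              have := hNn.conj_mem n hn (x ^ i)⁻¹
              rwa [inv_inv] at this
            rw [← BT.cj_mul, h4, BT.cj_mul, hTc _ h5]
          have h4 := hTmin (T ⊓ BT.cj (x ^ i) T) ⟨inf_le_left.trans hTN, fun n hn => by
            rw [BT.cj_inf, hTc n hn, h3 n hn], h2⟩
          have h5 : T ⊓ BT.cj (x ^ i) T = T := by
            by_contra h6
            exact h4 (lt_of_le_of_ne inf_le_left h6)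
          apply hi
          symm
          apply Subgroup.eq_of_le_of_card_ge (inf_eq_left.1 h5)
          rw [BT.card_cj]
        have hs : x ^ i * t * (x ^ i)⁻¹ ∈ BT.cj (x ^ i) T := BT.conj_mem_cj.2 ht
        have hsN : x ^ i * t * (x ^ i)⁻¹ ∈ N := hNn.conj_mem t (hTN ht) _
        generalize x ^ i * t * (x ^ i)⁻¹ = s at hs hsN
        have h2 : t * s * t⁻¹ * s⁻¹ ∈ T ⊓ BT.cj (x ^ i) T := by
          constructor
          · have h3 : s * t⁻¹ * s⁻¹ ∈ BT.cj s T := BT.conj_mem_cj.2 (T.inv_mem ht)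
            rw [hTc s hsN] at h3
            have h4 : t * s * t⁻¹ * s⁻¹ = t * (s * t⁻¹ * s⁻¹) := by group
            rw [h4]
            exact T.mul_mem ht h3
          · have h3 : ∀ n ∈ N, BT.cj n (BT.cj (x ^ i) T) = BT.cj (x ^ i) T := by
              intro n hn
              have h4 : n * x ^ i = x ^ i * ((x ^ i)⁻¹ * n * x ^ i) := by group
              have h5 : (x ^ i)⁻¹ * n * x ^ i ∈ N := by
                have := hNn.conj_mem n hn (x ^ i)⁻¹
                rwa [inv_inv] at this
              rw [← BT.cj_mul, h4, BT.cj_mul, hTc _ h5]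
            have h4 : t * s * t⁻¹ ∈ BT.cj t (BT.cj (x ^ i) T) := BT.conj_mem_cj.2 hs
            rw [h3 t (hTN ht)] at h4
            exact Subgroup.mul_mem _ h4 (Subgroup.inv_mem _ hs)
        rw [h1, Subgroup.mem_bot] at h2
        have h3 : t * s = (t * s * t⁻¹ * s⁻¹) * (s * t) := by group
        rw [h3, h2, one_mul]
    have hTM : ∀ t ∈ T, t ∈ M := by
      intro t ht
      apply E.mem_of_comm hOp' N hNn hNb hxN t (hTN ht)
      have key : ∀ i j : ℕ, i ≤ j → (x ^ i * t * (x ^ i)⁻¹) * (x ^ j * t * (x ^ j)⁻¹) =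
          (x ^ j * t * (x ^ j)⁻¹) * (x ^ i * t * (x ^ i)⁻¹) := by
        intro i j hij
        obtain ⟨d, rfl⟩ := Nat.exists_eq_add_of_le hij
        have h1 := hcomm d t ht
        rw [pow_add]
        calc x ^ i * t * (x ^ i)⁻¹ * (x ^ i * x ^ d * t * (x ^ i * x ^ d)⁻¹)
            = x ^ i * (t * (x ^ d * t * (x ^ d)⁻¹)) * (x ^ i)⁻¹ := by group
          _ = x ^ i * ((x ^ d * t * (x ^ d)⁻¹) * t) * (x ^ i)⁻¹ := by rw [h1]
          _ = x ^ i * x ^ d * t * (x ^ i * x ^ d)⁻¹ * (x ^ i * t * (x ^ i)⁻¹) := by group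
      intro i j
      rcases le_total i j with h | h
      · exact key i j h
      · exact (key j i h).symm
    -- the normal closure of `T` in `G` lies in `M`
    have h1 : (Subgroup.normalClosure (T : Set G)) ≠ ⊥ := by
      intro h
      apply hTb
      rw [eq_bot_iff, ← h]
      exact Subgroup.subset_normalClosure
    have h2 := E.sup_eq hOp' _ Subgroup.normalClosure_normal h1
    have h3 : Subgroup.normalClosure (T : Set G) ≤ M := by
      have h4 : ∀ g : G, ∀ t ∈ T, g * t * g⁻¹ ∈ M := by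
        intro g t ht
        have hg : g ∈ N ⊔ Subgroup.zpowers x := by
          rw [hNx]
          exact Subgroup.mem_top g
        obtain ⟨n, hn, z, hz, rfl⟩ := Subgroup.mem_sup_of_normal_left.1 hg
        have h5 : z⁻¹ * n * z ∈ N := by
          have := hNn.conj_mem n hn z⁻¹
          rwa [inv_inv] at this
        have h6 : n * z * t * (n * z)⁻¹ =
            z * ((z⁻¹ * n * z) * t * (z⁻¹ * n * z)⁻¹) * z⁻¹ := by group
        rw [h6]
        have h7 : (z⁻¹ * n * z) * t * (z⁻¹ * n * z)⁻¹ ∈ T := by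
          have h8 : (z⁻¹ * n * z) * t * (z⁻¹ * n * z)⁻¹ ∈ BT.cj (z⁻¹ * n * z) T :=
            BT.conj_mem_cj.2 ht
          rwa [hTc _ h5] at h8
        have hzM : z ∈ M := by
          have h8 : Subgroup.zpowers x ≤ M := by
            rw [Subgroup.zpowers_le]
            exact E.mem
          exact h8 hz
        exact M.mul_mem (M.mul_mem hzM (hTM _ h7)) (M.inv_mem hzM)
      unfold Subgroup.normalClosure
      rw [Subgroup.closure_le]
      intro y hy
      rw [Group.mem_conjugatesOfSet_iff] at hy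
      obtain ⟨t, ht, hty⟩ := hy
      obtain ⟨g, hg⟩ := isConj_iff.1 hty
      rw [← hg]
      exact h4 g t ht
    apply E.coat.1
    rw [eq_top_iff, ← h2]
    refine sup_le h3 ?_
    rw [Subgroup.zpowers_le]
    exact E.mem
  have hTn : T.Normal := by
    apply normal_of_cj
    intro g
    have h1 : (⊤ : Subgroup G) ≤ BT.S3_nz T := by
      rw [← hNx]
      refine sup_le (fun n hn => BT.S3_mem_nz.2 (hTc n hn)) ?_
      rw [Subgroup.zpowers_le]
      exact BT.S3_mem_nz.2 hTx
    exact BT.S3_mem_nz.1 (h1 (Subgroup.mem_top g))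
  have hTN' : T = N := by
    by_contra hne
    exact hNmin T ⟨hTn, hTb⟩ (lt_of_le_of_ne hTN hne)
  subst hTN'
  have hpT : p ∣ Nat.card T := by
    by_contra h
    exact hTb (hOp' T hTn h)
  have hsimple : IsSimpleGroup T := by
    have hnt : Nontrivial T := (Subgroup.nontrivial_iff_ne_bot T).2 hTb
    refine ⟨fun K hK => ?_⟩
    by_cases hKb : K = ⊥
    · exact Or.inl hKb
    · right
      have h1 : ¬ K.map T.subtype < T := by
        apply hTmin
        refine ⟨?_, ?_, ?_⟩
        · rintro _ ⟨y, _, rfl⟩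
          exact y.2
        · intro n hn
          apply BT.cj_eq_of_le
          intro y hy
          rw [BT.mem_cj] at hy
          obtain ⟨k, hk, hky⟩ := hy
          refine ⟨⟨n, hn⟩ * k * ⟨n, hn⟩⁻¹, hK.conj_mem k hk _, ?_⟩
          have h2 : ((k : T) : G) = n⁻¹ * y * n := hky
          show n * ((k : T) : G) * n⁻¹ = y
          rw [h2]
          group
        · intro h
          apply hKb
          exact (Subgroup.map_eq_bot_iff_of_injective K T.subtype_injective).1 h
      have h2 : K.map T.subtype = T := by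
        by_contra h3
        apply h1
        refine lt_of_le_of_ne ?_ h3
        rintro _ ⟨y, _, rfl⟩
        exact y.2
      rw [eq_top_iff]
      intro y _
      have h3 : (y : G) ∈ K.map T.subtype := by
        rw [h2]
        exact y.2
      obtain ⟨z, hz, hzy⟩ := h3
      have h4 : z = y := Subtype.ext hzy
      rw [← h4]
      exact hz
  refine ⟨T, hTn, hsimple, hNx, hpT, ?_⟩
  by_contra hCb
  have hCn : (Subgroup.centralizer (T : Set G)).Normal := by
    refine ⟨fun c hc g => ?_⟩
    rw [Subgroup.mem_centralizer_iff] at hc ⊢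
    intro t ht
    have h1 : g⁻¹ * t * g ∈ T := by
      have := hTn.conj_mem t ht g⁻¹
      rwa [inv_inv] at this
    have h2 := hc _ h1
    calc t * (g * c * g⁻¹) = g * ((g⁻¹ * t * g) * c) * g⁻¹ := by group
      _ = g * (c * (g⁻¹ * t * g)) * g⁻¹ := by rw [h2]
      _ = g * c * g⁻¹ * t := by group
  apply hCb
  apply E.hOp _ hCn
  -- the centraliser is a `p`-group
  have hCT : ∀ c ∈ Subgroup.centralizer (T : Set G), c ∈ T → c = 1 := by
    intro c hc hcT
    have h1 : T ⊓ Subgroup.centralizer (T : Set G) = ⊥ := by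
      by_contra h2
      have h3 : (T ⊓ Subgroup.centralizer (T : Set G)).Normal := inferInstance
      have h4 : T ≤ T ⊓ Subgroup.centralizer (T : Set G) := by
        by_contra h5
        apply hNmin (T ⊓ Subgroup.centralizer (T : Set G)) ⟨h3, h2⟩
        exact lt_of_le_of_ne inf_le_left (fun h6 => h5 h6.ge)
      apply E.nonab hOp' T hTn hTb
      intro a ha b hb
      exact (Subgroup.mem_centralizer_iff.1 (h4 hb).2) a ha
    have h2 : c ∈ T ⊓ Subgroup.centralizer (T : Set G) := ⟨hcT, hc⟩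
    rwa [h1, Subgroup.mem_bot] at h2
  rintro ⟨c, hc⟩
  refine ⟨1, ?_⟩
  apply Subtype.ext
  show c ^ p ^ 1 = 1
  rw [pow_one]
  apply hCT _ (Subgroup.pow_mem _ hc p)
  have hcc : c ∈ T ⊔ Subgroup.zpowers x := by
    rw [hNx]
    exact Subgroup.mem_top c
  obtain ⟨n, hn, z, hz, rfl⟩ := Subgroup.mem_sup_of_normal_left.1 hcc
  rw [← QuotientGroup.eq_one_iff]
  have h1 : ((n * z : G) : G ⧸ T) = (z : G ⧸ T) := by
    rw [QuotientGroup.mk_mul, (QuotientGroup.eq_one_iff n).2 hn, one_mul]
  rw [QuotientGroup.mk_pow, h1, ← QuotientGroup.mk_pow]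
  have h2 : z ^ p = 1 := by
    have h3 := Subgroup.orderOf_dvd_natCard _ hz
    rw [Nat.card_zpowers, E.ord] at h3
    exact orderOf_dvd_iff_pow_eq_one.1 h3
  rw [h2, QuotientGroup.mk_one]

end UQ

end Pool.Agent.MP_1c8e06_ag.AU
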