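import Pool.Agent.Lib.MP_1c8e06_ag.Mg.G018

set_option autoImplicit false

namespace Pool.Agent.MP_1c8e06_ag.AU

open Pool.Agent.MP_1c8e06_ag.AJ

/-!
# The quotient by the largest normal `p'`-subgroup
-/

theorem index_dvd_of_sup {G : Type} [Group G] [Finite G] (K R : Subgroup G) (hR : R.Normal)
    (h : K ⊔ R = ⊤) : K.index ∣ Nat.card R := by
  have h1 : R.relIndex (K ⊔ R) = R.relIndex K := Subgroup.relIndex_sup_right K R
  rw [h, Subgroup.relIndex_top_right] at h1
  have h2 := Subgroup.relIndex_mul_relIndex ⊥ (R ⊓ K) K bot_le inf_le_right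
  rw [Subgroup.relIndex_bot_left, Subgroup.relIndex_bot_left, Subgroup.inf_relIndex_right, ← h1] at h2
  have h3 := R.card_mul_index
  have h4 := K.card_mul_index
  rw [← h2, ← h3] at h4
  have h5 : R.index ≠ 0 := by
    intro h
    rw [h, mul_zero] at h3
    exact Nat.card_pos.ne h3
  have h6 : R.index * (Nat.card (R ⊓ K : Subgroup G) * K.index) = R.index * Nat.card R := by
    rw [← mul_assoc, mul_comm R.index, h4, mul_comm]
  have h7 := Nat.eq_of_mul_eq_mul_left (Nat.pos_of_ne_zero h5) h6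
  exact ⟨Nat.card (R ⊓ K : Subgroup G), by rw [← h7, mul_comm]⟩

/-- The part of the situation which passes to quotients. -/
structure UQ (p : ℕ) {G : Type} [Group G] (x : G) (M : Subgroup G) : Prop where
  ord : orderOf x = p
  hgen : Subgroup.normalClosure ({x} : Set G) = ⊤
  hOp : ∀ N : Subgroup G, N.Normal → IsPGroup p N → N = ⊥
  coat : IsCoatom M
  mem : x ∈ M
  uniq : ∀ K : Subgroup G, IsCoatom K → x ∈ K → K = M

theorem UMax.uq {p : ℕ} {G : Type} [Group G] {x : G} {M : Subgroup G} (E : UMax p x M) :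
    UQ p x M := ⟨E.ord, E.hgen, E.hOp, E.coat, E.mem, E.uniq⟩

namespace UQ

variable {p : ℕ} [hp : Fact p.Prime] {G : Type} [Group G] [Finite G] {x : G} {M : Subgroup G}

theorem le (E : UQ p x M) (L : Subgroup G) (hL : L ≠ ⊤) (hx : x ∈ L) : L ≤ M := by
  obtain ⟨K, hK, hLK⟩ := (eq_top_or_exists_le_coatom L).resolve_left hL
  rw [← E.uniq K hK (hLK hx)]
  exact hLK

theorem pgroup (E : UQ p x M) : IsPGroup p (Subgroup.zpowers x) := by
  apply IsPGroup.of_card (n := 1)
  rw [Nat.card_zpowers, E.ord, pow_one]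

theorem x_ne (E : UQ p x M) : x ≠ 1 := by
  intro h
  have := E.ord
  rw [h, orderOf_one] at this
  exact hp.out.one_lt.ne this

/-- A normal `p'`-subgroup lies in every maximal subgroup. -/
theorem le_coatom (E : UQ p x M) (R : Subgroup G) (hRn : R.Normal) (hR : ¬ p ∣ Nat.card R)
    (hRx : R ⊔ Subgroup.zpowers x ≠ ⊤) (K : Subgroup G) (hK : IsCoatom K) : R ≤ K := by
  by_contra hRK
  have hKR : K ⊔ R = ⊤ := by
    apply hK.2
    refine lt_of_le_of_ne le_sup_left ?_
    intro h
    apply hRK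
    rw [h]
    exact le_sup_right
  have h1 : ¬ p ∣ K.index := fun h => hR (h.trans (index_dvd_of_sup K R hRn hKR))
  obtain ⟨P, -, hPK, hP, hPi⟩ := exists_sylow_in (p := p) ⊥ K bot_le (IsPGroup.of_bot)
  have h2 : ¬ p ∣ P.relIndex ⊤ := by
    rw [Subgroup.relIndex_top_right, ← Subgroup.relIndex_mul_index hPK]
    intro h
    rcases (Nat.Prime.dvd_mul hp.out).1 h with h | h
    · exact hPi h
    · exact h1 h
  obtain ⟨a, -, ha⟩ := conj_into (p := p) ⊤ P (Subgroup.zpowers x) le_top hP h2 le_top E.pgroup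
  have h3 : x ∈ BT.cj a⁻¹ K := by
    rw [BT.mem_cj, inv_inv]
    exact hPK (ha (BT.conj_mem_cj.2 (Subgroup.mem_zpowers x)))
  have h4 : BT.cj a⁻¹ K = M := E.uniq _ (BT.isCoatom_cj hK) h3
  have h5 : R ≤ M := le_sup_left.trans (E.le _ hRx (Subgroup.mem_sup_right (Subgroup.mem_zpowers x)))
  rw [← h4] at h5
  apply hRK
  intro r hr
  have h6 := h5 (hRn.conj_mem r hr a⁻¹)
  rw [BT.mem_cj, inv_inv] at h6
  have h7 : a * (a⁻¹ * r * a) * a⁻¹ = r := by group
  rwa [h7] at h6

/-- The situation in the quotient by the largest normal `p'`-subgroup. -/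
theorem quot (E : UQ p x M) (R : Subgroup G) [hRn : R.Normal] (hR : ¬ p ∣ Nat.card R)
    (hRmax : ∀ N : Subgroup G, N.Normal → ¬ p ∣ Nat.card N → N ≤ R)
    (hRx : R ⊔ Subgroup.zpowers x ≠ ⊤) :
    UQ p (QuotientGroup.mk' R x) (M.map (QuotientGroup.mk' R)) ∧
      ∀ N : Subgroup (G ⧸ R), N.Normal → ¬ p ∣ Nat.card N → N = ⊥ := by
  have hsurj := QuotientGroup.mk'_surjective R
  have hcoat := E.le_coatom R hRn hR hRx
  have hker : (QuotientGroup.mk' R).ker = R := QuotientGroup.ker_mk' R
  have hcomap : ∀ N : Subgroup (G ⧸ R), R ≤ N.comap (QuotientGroup.mk' R) := by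
    intro N r hr
    rw [Subgroup.mem_comap, QuotientGroup.mk'_apply, (QuotientGroup.eq_one_iff r).2 hr]
    exact N.one_mem
  have hmapcomap : ∀ N : Subgroup (G ⧸ R), (N.comap (QuotientGroup.mk' R)).map
      (QuotientGroup.mk' R) = N := fun N => Subgroup.map_comap_eq_self_of_surjective hsurj N
  have hbot : ∀ N : Subgroup (G ⧸ R), N.comap (QuotientGroup.mk' R) ≤ R → N = ⊥ := by
    intro N hN
    rw [← hmapcomap N, eq_bot_iff]
    rintro _ ⟨y, hy, rfl⟩
    rw [Subgroup.mem_bot, QuotientGroup.mk'_apply]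
    exact (QuotientGroup.eq_one_iff y).2 (hN hy)
  have hcard : ∀ N : Subgroup (G ⧸ R), Nat.card (N.comap (QuotientGroup.mk' R)) =
      Nat.card R * Nat.card N := by
    intro N
    have h1 := Subgroup.relIndex_ker (K := N.comap (QuotientGroup.mk' R)) (QuotientGroup.mk' R)
    rw [hker, hmapcomap N] at h1
    have h2 := Subgroup.relIndex_mul_relIndex ⊥ R _ bot_le (hcomap N)
    rw [Subgroup.relIndex_bot_left, Subgroup.relIndex_bot_left, h1] at h2
    exact h2.symm
  have hxR : x ∉ R := by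
    intro h
    have h1 := Subgroup.orderOf_dvd_natCard R h
    rw [E.ord] at h1
    exact hR h1
  refine ⟨⟨?_, ?_, ?_, ?_, ?_, ?_⟩, ?_⟩
  · apply orderOf_eq_prime
    · rw [← map_pow]
      have h1 : x ^ p = 1 := by
        rw [← E.ord]
        exact pow_orderOf_eq_one x
      rw [h1, map_one]
    · intro h
      rw [QuotientGroup.mk'_apply] at h
      exact hxR ((QuotientGroup.eq_one_iff x).1 h)
  · have h1 : (⊤ : Subgroup G) ≤ (Subgroup.normalClosure
        ({QuotientGroup.mk' R x} : Set (G ⧸ R))).comap (QuotientGroup.mk' R) := by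
      rw [← E.hgen]
      have h2 : ((Subgroup.normalClosure ({QuotientGroup.mk' R x} : Set (G ⧸ R))).comap
        (QuotientGroup.mk' R)).Normal := Subgroup.normalClosure_normal.comap _
      apply Subgroup.normalClosure_le_normal
      intro y hy
      rw [Set.mem_singleton_iff] at hy
      rw [hy]
      exact Subgroup.subset_normalClosure (Set.mem_singleton _)
    rw [eq_top_iff]
    intro y _
    obtain ⟨g, rfl⟩ := hsurj y
    exact h1 (Subgroup.mem_top g)
  · intro N hN hNp
    apply hbot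
    set Q : Subgroup G := N.comap (QuotientGroup.mk' R) with hQ
    have hQn : Q.Normal := hN.comap _
    obtain ⟨T, -, hTQ, hTp, hTi⟩ := exists_sylow_in (p := p) ⊥ Q bot_le (IsPGroup.of_bot)
    have hfr : ∀ g : G, ∃ n ∈ Q, BT.cj (n * g) T = T := by
      intro g
      have h1 : BT.cj g T ≤ Q := by
        intro y hy
        rw [BT.mem_cj] at hy
        have h2 := hQn.conj_mem _ (hTQ hy) g
        have h3 : g * (g⁻¹ * y * g) * g⁻¹ = y := by group
        rwa [h3] at h2
      have h2 : IsPGroup p (BT.cj g T) := by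
        obtain ⟨m, hm⟩ := IsPGroup.iff_card.1 hTp
        exact IsPGroup.of_card (n := m) (by rw [BT.card_cj, hm])
      obtain ⟨n, hn, hnT⟩ := conj_into (p := p) Q T (BT.cj g T) hTQ hTp hTi h1 h2
      refine ⟨n, hn, ?_⟩
      apply BT.cj_eq_of_le
      rw [BT.cj_mul]
      exact hnT
    have hQT : Q ≤ T ⊔ R := by
      rw [← Subgroup.relIndex_eq_one]
      have h1 : (T ⊔ R).relIndex Q ∣ T.relIndex Q := Subgroup.relIndex_dvd_of_le_left Q le_sup_left
      have h2 : (T ⊔ R).relIndex Q ∣ R.relIndex Q := Subgroup.relIndex_dvd_of_le_left Q le_sup_right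
      have h3 : R.relIndex Q = Nat.card N := by
        have h4 := Subgroup.relIndex_ker (K := Q) (QuotientGroup.mk' R)
        rwa [hker, hQ, hmapcomap N] at h4
      obtain ⟨m, hm⟩ := IsPGroup.iff_card.1 hNp
      rw [h3, hm] at h2
      obtain ⟨j, -, hj⟩ := (Nat.dvd_prime_pow hp.out).1 h2
      rcases Nat.eq_zero_or_pos j with h0 | h0
      · rw [hj, h0, pow_zero]
      · exfalso
        apply hTi
        refine Dvd.dvd.trans ?_ h1
        rw [hj]
        exact dvd_pow_self p h0.ne'
    have hY : BT.S3_nz T = ⊤ := by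
      by_contra hne
      obtain ⟨K, hK, hYK⟩ := (eq_top_or_exists_le_coatom (BT.S3_nz T)).resolve_left hne
      apply hK.1
      rw [eq_top_iff]
      intro g _
      obtain ⟨n, hn, hng⟩ := hfr g
      have h1 : T ⊔ R ≤ K := by
        refine sup_le ?_ (hcoat K hK)
        intro t ht
        exact hYK (BT.S3_mem_nz.2 (BT.cj_eq_self ht))
      have h2 : g = n⁻¹ * (n * g) := by group
      rw [h2]
      exact K.mul_mem (K.inv_mem (h1 (hQT hn))) (hYK (BT.S3_mem_nz.2 hng))
    have hTn : T.Normal := by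
      refine ⟨fun y hy g => ?_⟩
      have h1 : g ∈ BT.S3_nz T := by
        rw [hY]
        exact Subgroup.mem_top g
      have h2 : g * y * g⁻¹ ∈ BT.cj g T := BT.conj_mem_cj.2 hy
      rwa [BT.S3_mem_nz.1 h1] at h2
    have hTb := E.hOp T hTn hTp
    rw [hTb, bot_sup_eq] at hQT
    exact hQT
  · have hRM : R ≤ M := hcoat M E.coat
    constructor
    · intro h
      apply E.coat.1
      have h1 : (M.map (QuotientGroup.mk' R)).comap (QuotientGroup.mk' R) = ⊤ := by
        rw [h, Subgroup.comap_top]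
      rwa [Subgroup.comap_map_eq, hker, sup_eq_left.2 hRM] at h1
    · intro K hK
      have h1 : M < K.comap (QuotientGroup.mk' R) := by
        refine lt_of_le_of_ne ?_ ?_
        · rw [← Subgroup.map_le_iff_le_comap]
          exact hK.le
        · intro h
          apply hK.ne
          rw [h, hmapcomap]
      have h2 := E.coat.2 _ h1
      rw [← hmapcomap K, h2, Subgroup.map_top_of_surjective _ hsurj]
  · exact ⟨x, E.mem, rfl⟩
  · intro K hK hxK
    have h1 : IsCoatom (K.comap (QuotientGroup.mk' R)) :=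
      Subgroup.isCoatom_comap_of_surjective hsurj hK
    have h2 := E.uniq _ h1 hxK
    rw [← h2, hmapcomap]
  · intro N hN hNp
    apply hbot
    apply hRmax _ (hN.comap _)
    rw [hcard N]
    intro h
    rcases (Nat.Prime.dvd_mul hp.out).1 h with h | h
    · exact hR h
    · exact hNp h

end UQ

end Pool.Agent.MP_1c8e06_ag.AU
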